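import Pool.Agent.LinU46.Aut
import Pool.Agent.Grz.NormalForm
import Pool.Agent.Grz.Matrices
import Pool.Agent.GAvg.E2Tools

/-!
# Maps which are linear on even and on odd numbers

* `TwoLin`: the orbits of definable maps of `(ℤ/2)^N`, `2 ^ N ≤ B`, which are linear on the even and
  on the odd numbers, are defined by bounded formulas.
* `twoLin_iff`: this is equivalent to the equality of `Delta0` and `E2Star`.
-/

set_option autoImplicit false

namespace Pool.Agent.LinU46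

open Finset Pool.Agent.Grz Pool.Agent.GAvg Pool.Agent.PTr Pool.Agent.LinU

/-- the two matrices -/
def mat (δ : ℕ → ℕ → ℕ × ℕ) (Q n a : ℕ) : Matrix (Fin (n + 1 + Q)) (Fin (n + 1 + Q)) (ZMod 2) :=
  fun i j =>
    if (i : ℕ) < n then (if (j : ℕ) = i + 1 then 1 else 0)
    else if (i : ℕ) = n then
      (if n + 1 ≤ (j : ℕ) then (((δ ((j : ℕ) - (n + 1)) a).2 : ℕ) : ZMod 2) else 0)
    else (if n + 1 ≤ (j : ℕ) ∧ n + 1 + (δ ((j : ℕ) - (n + 1)) a).1 = (i : ℕ) then 1 else 0)

theorem vec_tw (δ : ℕ → ℕ → ℕ × ℕ) (Q n z : ℕ) : vecOf 2 (n + 1 + Q) (tw δ Q n z) =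
    (mat δ Q n (z % 2)).mulVec (vecOf 2 (n + 1 + Q) z) := by
  obtain ⟨a, ha⟩ : ∃ a, a = z % 2 := ⟨_, rfl⟩
  funext i
  have h1 : vecOf 2 (n + 1 + Q) (tw δ Q n z) i = ((gd δ Q n a z i : ℕ) : ZMod 2) := by
    unfold vecOf
    rw [dg_tw i.2, ha]
  have h2 : (mat δ Q n (z % 2)).mulVec (vecOf 2 (n + 1 + Q) z) i =
      ∑ j ∈ range (n + 1 + Q), (if (i : ℕ) < n then (if j = i + 1 then 1 else 0)
        else if (i : ℕ) = n then
          (if n + 1 ≤ j then (((δ (j - (n + 1)) a).2 : ℕ) : ZMod 2) else 0)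
        else (if n + 1 ≤ j ∧ n + 1 + (δ (j - (n + 1)) a).1 = (i : ℕ) then 1 else 0)) *
          ((dg 2 z j : ℕ) : ZMod 2) := by
    rw [← Fin.sum_univ_eq_sum_range, ← ha]
    rfl
  rw [h1, h2]
  unfold gd
  by_cases h3 : (i : ℕ) < n
  · simp only [if_pos h3]
    rw [sum_eq_single ((i : ℕ) + 1)]
    · simp
    · intro b _ hb
      rw [if_neg hb, zero_mul]
    · intro h4
      exact absurd (mem_range.2 (by omega)) h4
  · simp only [if_neg h3]
    by_cases h4 : (i : ℕ) = n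
    · simp only [if_pos h4]
      rw [sum_range_add, sum_eq_zero (s := range (n + 1)), zero_add, ZMod.natCast_mod, Nat.cast_sum]
      · refine sum_congr rfl fun q _ => ?_
        rw [if_pos (Nat.le_add_right _ _), Nat.add_sub_cancel_left, Nat.cast_mul]
      · intro j hj
        rw [mem_range] at hj
        rw [if_neg (by omega), zero_mul]
    · simp only [if_neg h4]
      rw [sum_range_add, sum_eq_zero (s := range (n + 1)), zero_add, ZMod.natCast_mod, Nat.cast_sum]
      · refine sum_congr rfl fun q _ => ?_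
        rw [Nat.add_sub_cancel_left]
        by_cases h5 : n + 1 + (δ q a).1 = (i : ℕ)
        · rw [if_pos h5, if_pos ⟨Nat.le_add_right _ _, h5⟩, one_mul]
        · rw [if_neg h5, if_neg (fun h6 => h5 h6.2), zero_mul, Nat.cast_zero]
      · intro j hj
        rw [mem_range] at hj
        rw [if_neg (by omega), zero_mul]

theorem dfun_sum_range {m : ℕ} (Q : ℕ) {f : ℕ → (Fin m → ℕ) → ℕ} (h : ∀ q, DFun m (f q)) :
    DFun m (fun v => ∑ q ∈ range Q, f q v) := by
  induction Q with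
  | zero => exact DFun.const 0
  | succ Q ih =>
    have := ih.add (h Q)
    refine (show (fun v => ∑ q ∈ range (Q + 1), f q v) = _ from ?_) ▸ this
    funext v
    exact sum_range_succ _ _

theorem dfun_gd (δ : ℕ → ℕ → ℕ × ℕ) (Q : ℕ) {m : ℕ} {n z i : (Fin m → ℕ) → ℕ} (hn : DFun m n)
    (hz : DFun m z) (hi : DFun m i) : DFun m (fun v => gd δ Q (n v) (z v % 2) (z v) (i v)) := by
  have key : ∀ a, DFun m (fun v => gd δ Q (n v) a (z v) (i v)) := by
    intro a
    have hd : ∀ q, DFun m (fun v => dg 2 (z v) (n v + 1 + q)) := fun q =>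
      dfun_dg (DFun.const 2) hz ((hn.add (DFun.const 1)).add (DFun.const q)) fun _ => le_rfl
    unfold gd
    refine DFun.ite (Delta0.ltFun hi hn)
      (dfun_dg (DFun.const 2) hz (hi.add (DFun.const 1)) fun _ => le_rfl)
      (DFun.ite (Delta0.eqFun hi hn) ?_ ?_)
    · exact DFun.modPos (dfun_sum_range Q fun q => (DFun.const _).mul (hd q)) (DFun.const 2)
        fun _ => two_pos
    · refine DFun.modPos (dfun_sum_range Q fun q => ?_) (DFun.const 2) fun _ => two_pos
      exact DFun.ite (Delta0.eqFun ((hn.add (DFun.const 1)).add (DFun.const _)) hi) (hd q)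
        (DFun.const 0)
  have h1 := DFun.ite (Delta0.eqFun (DFun.modPos hz (DFun.const 2) fun _ => two_pos) (DFun.const 0))
    (key 0) (key 1)
  refine (show (fun v => gd δ Q (n v) (z v % 2) (z v) (i v)) = _ from ?_) ▸ h1
  funext v
  rcases Nat.mod_two_eq_zero_or_one (z v) with h | h
  · rw [if_pos h, h]
  · rw [if_neg (by omega), h]

theorem dfun_tw (δ : ℕ → ℕ → ℕ × ℕ) (Q : ℕ) {m : ℕ} {n z B : (Fin m → ℕ) → ℕ} (hn : DFun m n)
    (hz : DFun m z) (hB : DFun m B) (h : ∀ v, 2 ^ (n v + 1 + Q) ≤ B v) :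
    DFun m (fun v => tw δ Q (n v) (z v)) := by
  refine dfun_code (m := fun _ => 2) (d := fun v => n v + 1 + Q) (B := B)
    (g := fun i v => gd δ Q (n v) (z v % 2) (z v) i) (DFun.const 2)
    ((hn.add (DFun.const 1)).add (DFun.const Q)) hB ?_ (fun _ => le_rfl) h
  exact dfun_gd δ Q hn.weak hz.weak (DFun.proj 0)

theorem dfun_em (Q q : ℕ) {m : ℕ} {n w B : (Fin m → ℕ) → ℕ} (hn : DFun m n)
    (hw : DFun m w) (hB : DFun m B) (h : ∀ v, 2 ^ (n v + 1 + Q) ≤ B v) :
    DFun m (fun v => em Q (n v) q (w v)) := by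
  refine dfun_code (m := fun _ => 2) (d := fun v => n v + 1 + Q) (B := B)
    (g := fun i v => ed (n v) q (w v) i) (DFun.const 2)
    ((hn.add (DFun.const 1)).add (DFun.const Q)) hB ?_ (fun _ => le_rfl) h
  unfold ed
  exact DFun.ite (Delta0.leFun (DFun.proj 0) hn.weak)
    (dfun_dg (DFun.const 2) hw.weak (hn.weak.sub (DFun.proj 0)) fun _ => le_rfl)
    (DFun.ite (Delta0.eqFun (DFun.proj 0) ((hn.weak.add (DFun.const 1)).add (DFun.const q)))
      (DFun.const 1) (DFun.const 0))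

/-- The orbits of definable maps on `N` bits, `2 ^ N ≤ B`, which are linear over `ℤ/2` on the even
numbers and on the odd numbers, are defined by bounded formulas. -/
def TwoLin : Prop :=
  ∀ (n : ℕ) (N B x y : (Fin n → ℕ) → ℕ) (T : ℕ → (Fin n → ℕ) → ℕ),
    DFun n N → DFun n B → DFun n x → DFun n y →
    DFun (n + 1) (fun w => T (w 0) fun i => w i.succ) →
    (∀ v, 2 ^ N v ≤ B v) → (∀ v z, z < 2 ^ N v → T z v < 2 ^ N v) →
    (∀ v, ∃ A₀ A₁ : Matrix (Fin (N v)) (Fin (N v)) (ZMod 2), ∀ z, z < 2 ^ N v →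
      vecOf 2 (N v) (T z v) = (if z % 2 = 0 then A₀ else A₁).mulVec (vecOf 2 (N v) z)) →
    (∀ v, x v < 2 ^ N v) → Delta0 n (fun v => ∃ i, (fun z => T z v)^[i] (x v) = y v)

theorem dltN_ok {P : List Instr} {K : ℕ} (hP : ∀ i ∈ P, i.ok K P.length) (q a : ℕ)
    (hq : q < P.length * (K + 1) * 2) (ha : a < 2) :
    (dltN P K 2 q a).1 < P.length * (K + 1) * 2 ∧ (dltN P K 2 q a).2 < 2 := by
  have h1 : okst P K (q / 2 / (K + 1), q / 2 % (K + 1), q % 2) := by
    refine ⟨?_, ?_, ?_⟩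
    · show q / 2 / (K + 1) < P.length
      rw [Nat.div_lt_iff_lt_mul (by omega), Nat.div_lt_iff_lt_mul two_pos]
      exact hq
    · show q / 2 % (K + 1) ≤ K
      exact Nat.le_of_lt_succ (Nat.mod_lt _ (by omega))
    · show q % 2 ≤ 1
      omega
  obtain ⟨h2, h3⟩ := dlt_ok le_rfl hP _ a h1 ha
  exact ⟨(coded le_rfl hP).lt _ h2, h3⟩

/-- the orbit relation of `tw` -/
def TwOrb (δ : ℕ → ℕ → ℕ × ℕ) (Qs x0 y0 n : ℕ) : Prop :=
  Delta0 (n + 2) (fun u => ∃ i, (fun z => tw δ Qs (lg (u 1 / 2)) z)^[i]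
    (em Qs (lg (u 1 / 2)) x0 (u 0)) = em Qs (lg (u 1 / 2)) y0 1)

/-- Every relation in `E2Star` is reduced to the orbit relation of a map `tw`. -/
theorem exists_red {n : ℕ} {R : (Fin n → ℕ) → Prop} (hR : E2Star n R) :
    ∃ (δ : ℕ → ℕ → ℕ × ℕ) (Qs x0 y0 : ℕ), TwOrb δ Qs x0 y0 n → Delta0 n R := by
  obtain ⟨f, hf, hfR⟩ := hR
  obtain ⟨Qp, K, c, hnK, hcK, hc⟩ := main_cmd hf
  obtain ⟨P, h, hh, hPpos, hP, hflat⟩ := flat_prog c K hcK
  have hK : 0 < K := by omega
  have hlt : h < P.length := (List.getElem?_eq_some_iff.1 hh).1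
  obtain ⟨M, hM⟩ : ∃ M : (Fin n → ℕ) → ℕ, M = fun v => MvPolynomial.eval v Qp + 1 := ⟨_, rfl⟩
  obtain ⟨Qs, hQs⟩ : ∃ Qs : ℕ, Qs = P.length * (K + 1) * 2 := ⟨_, rfl⟩
  obtain ⟨δ, hδdef⟩ : ∃ δ : ℕ → ℕ → ℕ × ℕ, δ = dltN P K 2 := ⟨_, rfl⟩
  have hδ : ∀ q a, q < Qs → a < 2 → (δ q a).1 < Qs ∧ (δ q a).2 < 2 := by
    intro q a hq ha
    rw [hQs] at hq ⊢
    rw [hδdef]
    exact dltN_ok hP q a hq ha
  obtain ⟨x0, hx0⟩ : ∃ x0 : ℕ, x0 = codest K (0, 0, 1) := ⟨_, rfl⟩
  obtain ⟨y0, hy0⟩ : ∃ y0 : ℕ, y0 = codest K (h, 0, 1) := ⟨_, rfl⟩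
  have hx0Q : x0 < Qs := by
    rw [hx0, hQs]
    exact (coded le_rfl hP).lt _ ⟨hPpos, Nat.zero_le _, le_rfl⟩
  have hy0Q : y0 < Qs := by
    rw [hy0, hQs]
    exact (coded le_rfl hP).lt _ ⟨hlt, Nat.zero_le _, le_rfl⟩
  obtain ⟨Pb, hPb⟩ : ∃ Pb : (Fin n → ℕ) → ℕ, Pb = fun v => (4 * M v) ^ (2 * (K + 1)) := ⟨_, rfl⟩
  have hMD : DFun n M := by rw [hM]; exact (DFun.ofPoly Qp).add (DFun.const 1)
  have hPbD : DFun n Pb := by rw [hPb]; exact DFun.powConst ((DFun.const 4).mul hMD) _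
  refine ⟨δ, Qs, x0, y0, fun hC => ?_⟩
  unfold TwOrb at hC
  -- the start
  have hA : Delta0 (n + 2) (fun u => ∃ L, L ≤ 1 * (lg (M (fun i => u i.succ.succ)) + 1) ∧
      Run (fun d : Fin K → Fin 2 => Clk.cA d) (fun _ _ _ => 0) (fun _ _ => True) L
        (Clk.cst 1 (2 ^ (K + 1)) (fun _ => 0))
        (Clk.cst (u 0) (u 1) (regs (fun i => u i.succ.succ)))) := by
    have h1 := run_delta0 (fun d : Fin K → Fin 2 => Clk.cA d) (fun _ _ _ => 0) (fun _ _ => True)
      (fun _ m g _ => (Delta0.eqFun (DFun.const 0) (DFun.const 0)).of_iff fun v => by simp) 1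
      (n := n + 2) (w := fun u => M (fun i => u i.succ.succ)) (hMD.weak.weak)
      (s := fun k u => Clk.cst 1 (2 ^ (K + 1)) (fun _ => 0) k)
      (t := fun k u => Clk.cst (u 0) (u 1) (regs (fun i => u i.succ.succ)) k)
      (fun k => DFun.const _) (fun k => by
        match k with
        | .inl 0 => exact DFun.proj 0
        | .inl 1 => exact DFun.proj 1
        | .inl 2 => exact DFun.const 1
        | .inr i =>
          show DFun (n + 2) (fun u => regs (fun i => u i.succ.succ) i)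
          unfold regs
          by_cases hi : (i : ℕ) < n
          · simp only [dif_pos hi]
            exact DFun.proj _
          · simp only [dif_neg hi]
            exact DFun.const 0)
    exact h1
  have hB : Delta0 (n + 2) (fun u => (2 * M (fun i => u i.succ.succ)) ^ (K + 1) ≤ u 1) :=
    Delta0.leFun (DFun.powConst ((DFun.const 2).mul hMD.weak.weak) _) (DFun.proj 1)
  have hABC := (hA.and hB).and hC
  have h1 := Delta0.bexFun (n := n + 1) (b := fun u => Pb (fun i => u i.succ)) hPbD.weak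
    (P := fun w u => ((∃ L, L ≤ 1 * (lg (M (fun i => u i.succ)) + 1) ∧
      Run (fun d : Fin K → Fin 2 => Clk.cA d) (fun _ _ _ => 0) (fun _ _ => True) L
        (Clk.cst 1 (2 ^ (K + 1)) (fun _ => 0))
        (Clk.cst w (u 0) (regs (fun i => u i.succ)))) ∧
      (2 * M (fun i => u i.succ)) ^ (K + 1) ≤ u 0) ∧
      ∃ i, (fun z => tw δ Qs (lg (u 0 / 2)) z)^[i] (em Qs (lg (u 0 / 2)) x0 w) =
        em Qs (lg (u 0 / 2)) y0 1) hABC
  have h2 := Delta0.bexFun (n := n) (b := Pb) hPbD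
    (P := fun p v => ∃ w, w ≤ Pb v ∧ (((∃ L, L ≤ 1 * (lg (M v) + 1) ∧
      Run (fun d : Fin K → Fin 2 => Clk.cA d) (fun _ _ _ => 0) (fun _ _ => True) L
        (Clk.cst 1 (2 ^ (K + 1)) (fun _ => 0))
        (Clk.cst w p (regs v))) ∧
      (2 * M v) ^ (K + 1) ≤ p) ∧
      ∃ i, (fun z => tw δ Qs (lg (p / 2)) z)^[i] (em Qs (lg (p / 2)) x0 w) =
        em Qs (lg (p / 2)) y0 1)) h1
  refine h2.of_iff fun v => ?_
  obtain ⟨hreg, σ', hex, hn', hz⟩ := hc (M v) v (by rw [hM]; exact Nat.lt_succ_self _)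
  have hsteps := hflat (M v) (regs v) σ' hex
  have hM1 : 1 ≤ M v := by rw [hM]; exact Nat.succ_le_succ (Nat.zero_le _)
  have hRiff : R v ↔ ∀ i, i < K → σ' i = 0 := by
    constructor
    · intro hv i hi
      by_cases hin : i = n
      · subst hin
        rw [hn']
        exact (hfR v).1 hv
      · exact hz i hi hin
    · intro h0
      by_contra hv
      have h3 := (hfR v).2 hv
      rw [← hn', h0 n hnK] at h3
      exact absurd h3 (by norm_num)
  -- the translation of the orbit part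
  have htr : ∀ (L : ℕ) (p w : ℕ), p = 2 ^ ((K + 1) * (L + 1)) → M v ≤ 2 ^ L →
      w = wval 2 (tape K 2 L (regs v)) →
      ((∃ i, (fun z => tw δ Qs (lg (p / 2)) z)^[i] (em Qs (lg (p / 2)) x0 w) =
        em Qs (lg (p / 2)) y0 1) ↔ R v) := by
    intro L p w hp hML hw
    obtain ⟨m, hm⟩ : ∃ m, (K + 1) * (L + 1) = m + 1 :=
      Nat.exists_eq_succ_of_ne_zero (Nat.mul_ne_zero (by omega) (by omega))
    have hp2 : lg (p / 2) = m := by
      rw [hp, hm, pow_succ, Nat.mul_div_cancel _ two_pos]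
      exact Nat.log_pow (by norm_num) m
    have hcl := clk_orbit le_rfl hML hK hm hP hh (fun i _ => hreg i) hsteps
    have hwl : w < 2 ^ (m + 1) := by
      have h3 := wval_lt (tape_lt le_rfl L (regs v) (K := K))
      rw [length_tape, hm] at h3
      rw [hw]
      exact h3
    have h1l : 1 < 2 ^ (m + 1) := Nat.one_lt_two_pow (by omega)
    have e1 : num 2 (codest K (0, 0, 1)) (tape K 2 L (regs v)) =
        fun _ : Fin 1 => x0 * 2 ^ (m + 1) + w := by
      funext _
      show codest K (0, 0, 1) * 2 ^ (tape K 2 L (regs v)).length + _ = _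
      rw [length_tape, hm, ← hw, hx0]
    have e2 : num 2 (codest K (h, 0, 1)) (tape K 2 L (fun _ => 0)) =
        fun _ : Fin 1 => y0 * 2 ^ (m + 1) + 1 := by
      funext _
      show codest K (h, 0, 1) * 2 ^ (tape K 2 L (fun _ => 0)).length + _ = _
      rw [length_tape, hm, Clk.wval_tape_zero, hy0]
    have hlt2 : ∀ q w : ℕ, q < Qs → w < 2 ^ (m + 1) → q * 2 ^ (m + 1) + w < Qs * 2 ^ (m + 1) := by
      intro q w hq hw
      calc q * 2 ^ (m + 1) + w < q * 2 ^ (m + 1) + 2 ^ (m + 1) := by omega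
        _ = (q + 1) * 2 ^ (m + 1) := by ring
        _ ≤ Qs * 2 ^ (m + 1) := Nat.mul_le_mul_right _ hq
    have horb := orbit_qmap (n := m) hδ (hlt2 x0 w hx0Q hwl) (hlt2 y0 1 hy0Q h1l)
    rw [emX_eq hwl, emX_eq h1l] at horb
    rw [hRiff, ← hcl, e1, e2, hp2]
    rw [hQs, hδdef] at horb ⊢
    exact horb.symm
  constructor
  · intro hv
    have hLM : M v ≤ 2 ^ (lg (M v) + 1) := (lt_two_pow_lg (M v)).le
    obtain ⟨L, hL⟩ : ∃ L, L = lg (M v) + 1 := ⟨_, rfl⟩
    rw [← hL] at hLM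
    have hσ : ∀ i, i < K → regs v i < 2 ^ L := fun i _ => lt_of_lt_of_le (hreg i) hLM
    have hrun := Clk.crun_complete le_rfl L (regs v) hσ
    have hpb : 2 ^ ((K + 1) * (L + 1)) ≤ Pb v := by
      have h4 := lg_pow_ge (M v) hM1
      calc 2 ^ ((K + 1) * (L + 1)) ≤ (2 ^ 2) ^ ((K + 1) * (L + 1)) :=
            Nat.pow_le_pow_left (by norm_num) _
        _ = (2 ^ (L + 1)) ^ (2 * (K + 1)) := by rw [← pow_mul, ← pow_mul]; ring_nf
        _ ≤ Pb v := by
          rw [hPb]
          refine Nat.pow_le_pow_left ?_ _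
          rw [hL, pow_succ, pow_succ]
          omega
    have hw : wval 2 (tape K 2 L (regs v)) < 2 ^ ((K + 1) * (L + 1)) := by
      have := wval_lt (tape_lt le_rfl L (regs v) (K := K))
      rwa [length_tape] at this
    refine ⟨2 ^ ((K + 1) * (L + 1)), hpb, wval 2 (tape K 2 L (regs v)), hw.le.trans hpb,
      ⟨⟨L, by omega, hrun⟩, ?_⟩, ?_⟩
    · calc (2 * M v) ^ (K + 1) ≤ (2 * 2 ^ L) ^ (K + 1) :=
            Nat.pow_le_pow_left (Nat.mul_le_mul_left _ hLM) _
        _ = 2 ^ ((K + 1) * (L + 1)) := by rw [← pow_succ', ← pow_mul]; congr 1; ring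
    · exact (htr L _ _ rfl hLM rfl).2 hv
  · rintro ⟨p, -, w, -, ⟨⟨L, -, hrun⟩, hB'⟩, horb⟩
    obtain ⟨σ, hσ, he⟩ := Clk.crun_sound le_rfl hrun
    have ew : w = wval 2 (tape K 2 L σ) := congrFun he (.inl 0)
    have ep : p = 2 ^ ((K + 1) * (L + 1)) := congrFun he (.inl 1)
    have eσ : ∀ i, i < K → regs v i = σ i := fun i hi => congrFun he (.inr ⟨i, hi⟩)
    rw [tape_congr L (fun i hi => (eσ i hi).symm)] at ew
    have hML : M v ≤ 2 ^ L := by
      rw [ep] at hB'
      have h3 : (2 * M v) ^ (K + 1) ≤ (2 ^ (L + 1)) ^ (K + 1) := by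
        refine hB'.trans (le_of_eq ?_)
        rw [← pow_mul]; congr 1; ring
      have h4 : 2 * M v ≤ 2 ^ (L + 1) := (Nat.pow_le_pow_iff_left (by omega)).1 h3
      rw [pow_succ'] at h4
      exact Nat.le_of_mul_le_mul_left h4 (by omega)
    exact (htr L p w ep hML ew).1 horb

theorem twOrb_of_twoLin (H : TwoLin) (δ : ℕ → ℕ → ℕ × ℕ) (Qs x0 y0 n : ℕ) :
    TwOrb δ Qs x0 y0 n := by
  have hnn : DFun (n + 2) (fun u => lg (u 1 / 2)) :=
    DFun.lg (DFun.divPos (DFun.proj 1) (DFun.const 2) fun _ => two_pos)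
  have hBB : DFun (n + 2) (fun u => (u 1 + 1) * 2 ^ (1 + Qs)) :=
    ((DFun.proj 1).add (DFun.const 1)).mul (DFun.const _)
  have hbd : ∀ u : Fin (n + 2) → ℕ, 2 ^ (lg (u 1 / 2) + 1 + Qs) ≤ (u 1 + 1) * 2 ^ (1 + Qs) := by
    intro u
    rw [add_assoc, pow_add]
    refine Nat.mul_le_mul_right _ ?_
    rcases Nat.eq_zero_or_pos (u 1 / 2) with h0 | h0
    · rw [h0]
      simp [lg]
    · have h1 : 2 ^ lg (u 1 / 2) ≤ u 1 / 2 := Nat.pow_log_le_self 2 (by omega)
      omega
  unfold TwOrb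
  refine H (n + 2) (fun u => lg (u 1 / 2) + 1 + Qs) (fun u => (u 1 + 1) * 2 ^ (1 + Qs))
    (fun u => em Qs (lg (u 1 / 2)) x0 (u 0)) (fun u => em Qs (lg (u 1 / 2)) y0 1)
    (fun z u => tw δ Qs (lg (u 1 / 2)) z) ((hnn.add (DFun.const 1)).add (DFun.const Qs)) hBB
    (dfun_em Qs x0 hnn (DFun.proj 0) hBB hbd) (dfun_em Qs y0 hnn (DFun.const 1) hBB hbd)
    (dfun_tw δ Qs hnn.weak (DFun.proj 0) hBB.weak fun w => hbd fun i => w i.succ) hbd
    (fun u z _ => tw_lt δ Qs _ z) (fun u => ⟨mat δ Qs _ 0, mat δ Qs _ 1, fun z _ => ?_⟩)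
    (fun u => em_lt Qs _ x0 _)
  rw [vec_tw]
  rcases Nat.mod_two_eq_zero_or_one z with h | h
  · rw [if_pos h, h]
  · rw [if_neg (by omega), h]

/-- Hardness. -/
theorem delta0_of_twoLin (H : TwoLin) {n : ℕ} {R : (Fin n → ℕ) → Prop}
    (hR : E2Star n R) : Delta0 n R := by
  obtain ⟨δ, Qs, x0, y0, h⟩ := exists_red hR
  exact h (twOrb_of_twoLin H δ Qs x0 y0 n)

/-- A point of the orbit of `x` under a self-map of `[0, M)` is reached after at most `M` steps. -/
theorem iter_le {f : ℕ → ℕ} {M x : ℕ} (hx : x < M) (hf : ∀ z, z < M → f z < M) (i : ℕ) :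
    ∃ j, j ≤ M ∧ f^[j] x = f^[i] x := by
  have hlt : ∀ j, f^[j] x < M := by
    intro j
    induction j with
    | zero => exact hx
    | succ j ih =>
      rw [Function.iterate_succ_apply']
      exact hf _ ih
  induction i using Nat.strong_induction_on with
  | _ i ih =>
    rcases Nat.lt_or_ge M i with h | h
    · have hcard : (Finset.range M).card < (Finset.range (M + 1)).card := by simp
      obtain ⟨a, ha, b, hb, hab, heq⟩ := Finset.exists_ne_map_eq_of_card_lt_of_maps_to hcard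
        (f := fun j => f^[j] x) (fun j _ => by
          simp only [Finset.coe_range, Set.mem_Iio]
          exact hlt j)
      simp only [Finset.mem_range] at ha hb
      have key : ∀ a b, a < b → b ≤ M → f^[a] x = f^[b] x → ∃ j, j ≤ M ∧ f^[j] x = f^[i] x := by
        intro a b hab hbM heq
        have h1 : f^[i - b + a] x = f^[i] x := by
          rw [Function.iterate_add_apply, heq, ← Function.iterate_add_apply]
          congr 2
          omega
        obtain ⟨j, hj, hj'⟩ := ih (i - b + a) (by omega)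
        exact ⟨j, hj, hj'.trans h1⟩
      rcases Nat.lt_or_gt_of_ne hab with hab | hab
      · exact key a b hab (by omega) heq
      · exact key b a hab (by omega) heq.symm
    · exact ⟨i, h, rfl⟩

/-- If `Delta0` and `E2Star` are equal, the orbits of all definable self-maps of `[0, p)` are
defined by bounded formulas. -/
theorem orbit_of_eq (H : ∀ (n : ℕ) (R : (Fin n → ℕ) → Prop), E2Star n R → Delta0 n R) {n : ℕ}
    {p x y : (Fin n → ℕ) → ℕ} {T : ℕ → (Fin n → ℕ) → ℕ} (hp : DFun n p) (hx : DFun n x)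
    (hy : DFun n y) (hT : DFun (n + 1) (fun w => T (w 0) (fun i => w i.succ)))
    (hxp : ∀ v, x v < p v) (hTp : ∀ v z, z < p v → T z v < p v) :
    Delta0 n (fun v => ∃ i, (fun z => T z v)^[i] (x v) = y v) := by
  obtain ⟨s, hsdef⟩ : ∃ s : ℕ → (Fin n → ℕ) → ℕ, s = fun z v => if z < p v then T z v else 0 :=
    ⟨_, rfl⟩
  have hs : DFun (n + 1) (fun w => s (w 0) (fun i => w i.succ)) := by
    rw [hsdef]
    exact DFun.ite (Delta0.ltFun (DFun.proj 0) hp.weak) hT (DFun.const 0)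
  have hle : ∀ z v, s z v ≤ p v := by
    intro z v
    rw [hsdef]
    dsimp only
    split_ifs with h
    · exact (hTp v z h).le
    · exact Nat.zero_le _
  have hit := E2.iter_family hp.e2 hs.e2 hle
  have h1 : E2 (n + 1) (fun w => (fun z => s z (fun i => w i.succ))^[w 0]
      (x (fun i => w i.succ))) := by
    have h2 := hit.comp (n := n + 1) (hs := Fin.cons (fun w => w 0)
      (Fin.cons (fun w => x (fun i => w i.succ)) (fun i w => w i.succ))) (by
        intro i
        refine Fin.cases ?_ (fun j => ?_) i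
        · exact E2.proj 0
        · refine Fin.cases ?_ (fun k => ?_) j
          · exact hx.weak.e2
          · exact E2.proj _)
    refine h2.congr ?_
    intro v
    simp
  have h2 : E2Star n (fun v => ∃ i, i ≤ p v ∧ (fun z => s z v)^[i] (x v) = y v) :=
    E2Star.bex (P := fun i v => (fun z => s z v)^[i] (x v) = y v) hp.e2
      (E2Star.eqFun h1 hy.weak.e2)
  refine (H _ _ h2).of_iff fun v => ?_
  have hit2 : ∀ t, (fun z => s z v)^[t] (x v) = (fun z => T z v)^[t] (x v) ∧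
      (fun z => T z v)^[t] (x v) < p v := by
    intro t
    induction t with
    | zero => exact ⟨rfl, hxp v⟩
    | succ t ih =>
      rw [Function.iterate_succ_apply', Function.iterate_succ_apply', ih.1]
      refine ⟨?_, hTp v _ ih.2⟩
      rw [hsdef]
      dsimp only
      rw [if_pos ih.2]
  constructor
  · rintro ⟨i, hi⟩
    obtain ⟨j, hj, hj'⟩ := iter_le (hxp v) (hTp v) i
    exact ⟨j, hj, by rw [(hit2 j).1, hj', hi]⟩
  · rintro ⟨i, -, hi⟩
    exact ⟨i, by rw [← (hit2 i).1, hi]⟩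

/-- If `Delta0` and `E2Star` are equal, the iterates of all definable self-maps of `[0, p)` are in
`DFun`. -/
theorem iter_of_eq (H : ∀ (n : ℕ) (R : (Fin n → ℕ) → Prop), E2Star n R → Delta0 n R) {n : ℕ}
    {p x t : (Fin n → ℕ) → ℕ} {T : ℕ → (Fin n → ℕ) → ℕ} (hp : DFun n p) (hx : DFun n x)
    (ht : DFun n t) (hT : DFun (n + 1) (fun w => T (w 0) (fun i => w i.succ)))
    (hxp : ∀ v, x v < p v) (hTp : ∀ v z, z < p v → T z v < p v) :
    DFun n (fun v => (fun z => T z v)^[t v] (x v)) := by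
  have hit2 : ∀ v t, (fun z => T z v)^[t] (x v) < p v := by
    intro v t
    induction t with
    | zero => exact hxp v
    | succ t ih =>
      rw [Function.iterate_succ_apply']
      exact hTp v _ ih
  obtain ⟨s, hsdef⟩ : ∃ s : ℕ → (Fin n → ℕ) → ℕ, s = fun z v => if z < p v then T z v else 0 :=
    ⟨_, rfl⟩
  have hs : DFun (n + 1) (fun w => s (w 0) (fun i => w i.succ)) := by
    rw [hsdef]
    exact DFun.ite (Delta0.ltFun (DFun.proj 0) hp.weak) hT (DFun.const 0)
  have hle : ∀ z v, s z v ≤ p v := by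
    intro z v
    rw [hsdef]
    dsimp only
    split_ifs with h
    · exact (hTp v z h).le
    · exact Nat.zero_le _
  have hst : ∀ v t, (fun z => s z v)^[t] (x v) = (fun z => T z v)^[t] (x v) := by
    intro v t
    induction t with
    | zero => rfl
    | succ t ih =>
      rw [Function.iterate_succ_apply', Function.iterate_succ_apply', ih, hsdef]
      dsimp only
      rw [if_pos (hit2 v t)]
  have hit := E2.iter_family hp.e2 hs.e2 hle
  have h1 := hit.comp (n := n) (hs := Fin.cons t (Fin.cons x (fun i v => v i))) (by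
    intro i
    refine Fin.cases ?_ (fun j => ?_) i
    · exact ht.e2
    · refine Fin.cases ?_ (fun k => ?_) j
      · exact hx.e2
      · exact E2.proj _)
  have hE : E2 n (fun v => (fun z => T z v)^[t v] (x v)) := by
    refine h1.congr ?_
    intro v
    rw [← hst v (t v)]
    simp
  exact DFun.ofGraph hp (fun v => (hit2 v (t v)).le) (H _ _ (E2Star.eqFun (E2.proj 0) hE.weak))

/-- The iterates of definable maps on `N` bits, `2 ^ N ≤ B`, which are linear over `ℤ/2` on the even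
numbers and on the odd numbers, are in `DFun`. -/
def TwoLinIter : Prop :=
  ∀ (n : ℕ) (N B x t : (Fin n → ℕ) → ℕ) (T : ℕ → (Fin n → ℕ) → ℕ),
    DFun n N → DFun n B → DFun n x → DFun n t →
    DFun (n + 1) (fun w => T (w 0) fun i => w i.succ) →
    (∀ v, 2 ^ N v ≤ B v) → (∀ v z, z < 2 ^ N v → T z v < 2 ^ N v) →
    (∀ v, ∃ A₀ A₁ : Matrix (Fin (N v)) (Fin (N v)) (ZMod 2), ∀ z, z < 2 ^ N v →
      vecOf 2 (N v) (T z v) = (if z % 2 = 0 then A₀ else A₁).mulVec (vecOf 2 (N v) z)) →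
    (∀ v, x v < 2 ^ N v) → DFun n (fun v => (fun z => T z v)^[t v] (x v))

theorem twoLin_of_iter (H : TwoLinIter) : TwoLin := by
  intro n N B x y T hN hB hx hy hT hNB hTb hlin hxb
  have h1 : DFun (n + 1) (fun w => (fun z => T z (fun i => w i.succ))^[w 0]
      (x fun i => w i.succ)) :=
    H (n + 1) (fun w => N fun i => w i.succ) (fun w => B fun i => w i.succ)
      (fun w => x fun i => w i.succ) (fun w => w 0) (fun z w => T z fun i => w i.succ)
      hN.weak hB.weak hx.weak (DFun.proj 0)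
      (DFun.app hT (DFun.proj 0) fun i => DFun.proj i.succ.succ) (fun w => hNB _)
      (fun w => hTb _) (fun w => hlin _) (fun w => hxb _)
  have h2 := Delta0.bexFun (P := fun i v => (fun z => T z v)^[i] (x v) = y v) hB
    (Delta0.eqFun h1 hy.weak)
  refine h2.of_iff fun v => ⟨?_, ?_⟩
  · rintro ⟨i, hi⟩
    obtain ⟨j, hj, hj'⟩ := iter_le (hxb v) (hTb v) i
    exact ⟨j, hj.trans (hNB v), hj'.trans hi⟩
  · rintro ⟨i, -, hi⟩
    exact ⟨i, hi⟩

/-- **Two linear pieces, orbits.** -/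
theorem twoLin_iff : (∀ (n : ℕ) (R : (Fin n → ℕ) → Prop), Delta0 n R ↔ E2Star n R) ↔ TwoLin := by
  constructor
  · intro H n N B x y T hN hB hx hy hT hNB hTb _ hxb
    exact orbit_of_eq (fun n R hR => (H n R).2 hR) (dfun_powLe (DFun.const 2) hN hB hNB) hx hy hT
      hxb hTb
  · intro H n R
    exact ⟨fun h => h.e2Star, fun h => delta0_of_twoLin H h⟩

/-- **Two linear pieces, iterates.** -/
theorem twoLinIter_iff :
    (∀ (n : ℕ) (R : (Fin n → ℕ) → Prop), Delta0 n R ↔ E2Star n R) ↔ TwoLinIter := by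
  constructor
  · intro H n N B x t T hN hB hx ht hT hNB hTb _ hxb
    exact iter_of_eq (fun n R hR => (H n R).2 hR) (dfun_powLe (DFun.const 2) hN hB hNB) hx ht hT
      hxb hTb
  · intro H
    exact twoLin_iff.2 (twoLin_of_iter H)

end Pool.Agent.LinU46
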