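import Pool.Agent.LinU.PD
import Pool.Agent.PTr.ClkMain

/-!
# Queue automata as maps which are linear on even and on odd numbers

A configuration of a queue automaton with `Q` states and a binary word of length `n + 1` is coded
by a vector of `n + 1 + Q` bits: the word, the first letter in front, and the unit vector of the
state. For each value of the first letter, the step of the automaton is linear over `ℤ/2`.
-/

set_option autoImplicit false

namespace Pool.Agent.LinU46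

open Finset Pool.Agent.Grz Pool.Agent.GAvg Pool.Agent.PTr Pool.Agent.LinU

/-- the digit `i` after reading the letter `a` -/
def gd (δ : ℕ → ℕ → ℕ × ℕ) (Q n a z i : ℕ) : ℕ :=
  if i < n then dg 2 z (i + 1)
  else if i = n then (∑ q ∈ range Q, (δ q a).2 * dg 2 z (n + 1 + q)) % 2
  else (∑ q ∈ range Q, if n + 1 + (δ q a).1 = i then dg 2 z (n + 1 + q) else 0) % 2

/-- one step of the queue automaton on codes -/
def tw (δ : ℕ → ℕ → ℕ × ℕ) (Q n z : ℕ) : ℕ :=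
  ∑ i ∈ range (n + 1 + Q), gd δ Q n (z % 2) z i * 2 ^ i

/-- the digit `i` of the code of a configuration -/
def ed (n q w i : ℕ) : ℕ := if i ≤ n then dg 2 w (n - i) else if i = n + 1 + q then 1 else 0

/-- the code of a configuration; `w` is the number of the word -/
def em (Q n q w : ℕ) : ℕ := ∑ i ∈ range (n + 1 + Q), ed n q w i * 2 ^ i

theorem dg2_lt (z i : ℕ) : dg 2 z i < 2 := dg_lt two_pos z i

theorem ed_lt (n q w i : ℕ) : ed n q w i < 2 := by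
  unfold ed
  split_ifs
  · exact dg2_lt _ _
  · omega
  · omega

theorem gd_lt (δ : ℕ → ℕ → ℕ × ℕ) (Q n a z i : ℕ) : gd δ Q n a z i < 2 := by
  unfold gd
  split_ifs
  · exact dg2_lt _ _
  · exact Nat.mod_lt _ two_pos
  · exact Nat.mod_lt _ two_pos

theorem em_lt (Q n q w : ℕ) : em Q n q w < 2 ^ (n + 1 + Q) :=
  lt_code two_pos _ fun i _ => ed_lt n q w i

theorem tw_lt (δ : ℕ → ℕ → ℕ × ℕ) (Q n z : ℕ) : tw δ Q n z < 2 ^ (n + 1 + Q) :=
  lt_code two_pos _ fun i _ => gd_lt δ Q n (z % 2) z i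

theorem dg_em {Q n q w i : ℕ} (hi : i < n + 1 + Q) : dg 2 (em Q n q w) i = ed n q w i :=
  dg_code two_pos (ed n q w) (fun i _ => ed_lt n q w i) hi

theorem dg_tw {δ : ℕ → ℕ → ℕ × ℕ} {Q n z i : ℕ} (hi : i < n + 1 + Q) :
    dg 2 (tw δ Q n z) i = gd δ Q n (z % 2) z i :=
  dg_code two_pos (gd δ Q n (z % 2) z) (fun i _ => gd_lt δ Q n (z % 2) z i) hi

/-- The low digits do not see the high ones. -/
theorem dg_low {n i z : ℕ} (hi : i < n) : dg 2 (z % 2 ^ n) i = dg 2 z i := by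
  have h1 : 2 ^ n = 2 ^ i * (2 * 2 ^ (n - i - 1)) := by
    rw [← pow_succ', ← pow_add]
    congr 1
    omega
  have h2 : z = z % 2 ^ n + 2 ^ i * (2 * (2 ^ (n - i - 1) * (z / 2 ^ n))) := by
    have h3 := Nat.mod_add_div z (2 ^ n)
    have h4 : 2 ^ n * (z / 2 ^ n) = 2 ^ i * (2 * (2 ^ (n - i - 1) * (z / 2 ^ n))) := by
      rw [← mul_assoc 2, ← mul_assoc (2 ^ i), ← h1]
    omega
  unfold dg
  conv_rhs => rw [h2]
  rw [Nat.add_mul_div_left _ _ (pow_pos two_pos i), Nat.add_mul_mod_self_left]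

theorem dg_shift {w β i : ℕ} (hβ : β < 2) : dg 2 (2 * w + β) (i + 1) = dg 2 w i := by
  unfold dg
  have h1 : (2 * w + β) / 2 = w := by omega
  rw [pow_succ', ← Nat.div_div_eq_div_mul, h1]

theorem dg_top {w n : ℕ} (hw : w < 2 ^ (n + 1)) : dg 2 w n = w / 2 ^ n := by
  unfold dg
  refine Nat.mod_eq_of_lt ?_
  rw [pow_succ] at hw
  exact Nat.div_lt_of_lt_mul hw

theorem dg_zero_right (z : ℕ) : dg 2 z 0 = z % 2 := by
  unfold dg
  rw [pow_zero, Nat.div_one]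

theorem sum_unit {Q q : ℕ} (hq : q < Q) (f : ℕ → ℕ) (n : ℕ) :
    ∑ q' ∈ range Q, f q' * (if n + 1 + q' = n + 1 + q then 1 else 0) = f q := by
  rw [sum_eq_single q]
  · simp
  · intro b _ hb
    rw [if_neg (by omega), mul_zero]
  · intro h
    exact absurd (mem_range.2 hq) h

/-- A step of the automaton. -/
theorem tw_em {δ : ℕ → ℕ → ℕ × ℕ} {Q n q w : ℕ} (hq : q < Q) (hw : w < 2 ^ (n + 1))
    (h2 : (δ q (w / 2 ^ n)).2 < 2) :
    tw δ Q n (em Q n q w) =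
      em Q n (δ q (w / 2 ^ n)).1 (2 * (w % 2 ^ n) + (δ q (w / 2 ^ n)).2) := by
  have ha : em Q n q w % 2 = w / 2 ^ n := by
    rw [← dg_zero_right, dg_em (by omega), ed, if_pos (Nat.zero_le _), Nat.sub_zero, dg_top hw]
  have hst : ∀ q', q' < Q → dg 2 (em Q n q w) (n + 1 + q') =
      if n + 1 + q' = n + 1 + q then 1 else 0 := by
    intro q' hq'
    rw [dg_em (by omega), ed, if_neg (by omega)]
  obtain ⟨a, hadef⟩ : ∃ a, a = w / 2 ^ n := ⟨_, rfl⟩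
  rw [← hadef] at ha h2 ⊢
  show ∑ i ∈ range (n + 1 + Q), gd δ Q n (em Q n q w % 2) (em Q n q w) i * 2 ^ i =
    ∑ i ∈ range (n + 1 + Q), ed n (δ q a).1 (2 * (w % 2 ^ n) + (δ q a).2) i * 2 ^ i
  rw [ha]
  refine sum_congr rfl fun i hi => ?_
  rw [mem_range] at hi
  congr 1
  unfold gd
  rcases Nat.lt_trichotomy i n with h | h | h
  · rw [if_pos h, dg_em (by omega), ed, ed, if_pos (by omega), if_pos (by omega)]
    obtain ⟨k, hk⟩ : ∃ k, n - i = k + 1 := ⟨n - i - 1, by omega⟩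
    have hk' : n - (i + 1) = k := by omega
    rw [hk, hk', dg_shift h2, dg_low (by omega)]
  · rw [if_neg (by omega), if_pos h, ed, if_pos (by omega), h, Nat.sub_self, dg_zero_right]
    have h3 : ∑ q' ∈ range Q, (δ q' a).2 * dg 2 (em Q n q w) (n + 1 + q') = (δ q a).2 := by
      rw [← sum_unit hq (fun q' => (δ q' a).2) n]
      refine sum_congr rfl fun q' hq' => ?_
      rw [hst q' (mem_range.1 hq')]
    rw [h3]
    omega
  · rw [if_neg (by omega), if_neg (by omega), ed, if_neg (by omega)]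
    have h3 : (∑ q' ∈ range Q, if n + 1 + (δ q' a).1 = i then dg 2 (em Q n q w) (n + 1 + q')
        else 0) = if n + 1 + (δ q a).1 = i then 1 else 0 := by
      rw [← sum_unit hq (fun q' => if n + 1 + (δ q' a).1 = i then 1 else 0) n]
      refine sum_congr rfl fun q' hq' => ?_
      rw [hst q' (mem_range.1 hq')]
      split_ifs <;> rfl
    rw [h3]
    by_cases h4 : n + 1 + (δ q a).1 = i
    · rw [if_pos h4, if_pos h4.symm]
    · rw [if_neg h4, if_neg (fun h5 => h4 h5.symm)]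

theorem em_inj {Q n q q' w w' : ℕ} (hq : q < Q) (hq' : q' < Q) (hw : w < 2 ^ (n + 1))
    (hw' : w' < 2 ^ (n + 1)) (h : em Q n q w = em Q n q' w') : q = q' ∧ w = w' := by
  have h1 : ∀ i, i < n + 1 + Q → ed n q w i = ed n q' w' i := by
    intro i hi
    rw [← dg_em hi, ← dg_em hi, h]
  constructor
  · have h2 := h1 (n + 1 + q) (by omega)
    unfold ed at h2
    have h3 : ¬ n + 1 + q ≤ n := by omega
    rw [if_neg h3, if_pos rfl, if_neg h3] at h2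
    by_contra hne
    rw [if_neg (by omega)] at h2
    exact one_ne_zero h2
  · refine dg_ext hw hw' fun i hi => ?_
    have h2 := h1 (n - i) (by omega)
    unfold ed at h2
    rw [if_pos (by omega), if_pos (by omega)] at h2
    have h3 : n - (n - i) = i := by omega
    rwa [h3] at h2

/-- the code of a number -/
def emX (Q n X : ℕ) : ℕ := em Q n (X / 2 ^ (n + 1)) (X % 2 ^ (n + 1))

theorem emX_eq {Q n q w : ℕ} (hw : w < 2 ^ (n + 1)) :
    emX Q n (q * 2 ^ (n + 1) + w) = em Q n q w := by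
  unfold emX
  have h0 : 0 < 2 ^ (n + 1) := pow_pos two_pos _
  rw [mul_comm, Nat.mul_add_div h0, Nat.div_eq_of_lt hw, add_zero, Nat.mul_add_mod,
    Nat.mod_eq_of_lt hw]

theorem emX_inj {Q n X Y : ℕ} (hX : X < Q * 2 ^ (n + 1)) (hY : Y < Q * 2 ^ (n + 1))
    (h : emX Q n X = emX Q n Y) : X = Y := by
  have h0 : 0 < 2 ^ (n + 1) := pow_pos two_pos _
  obtain ⟨h1, h2⟩ := em_inj ((Nat.div_lt_iff_lt_mul h0).2 hX) ((Nat.div_lt_iff_lt_mul h0).2 hY)
    (Nat.mod_lt _ h0) (Nat.mod_lt _ h0) h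
  rw [← Nat.div_add_mod X (2 ^ (n + 1)), h1, h2, Nat.div_add_mod]

/-- A step of the map `qmap` of slope two. -/
theorem step_qmap {δ : ℕ → ℕ → ℕ × ℕ} {Q n X : ℕ}
    (hδ : ∀ q a, q < Q → a < 2 → (δ q a).1 < Q ∧ (δ q a).2 < 2) (hX : X < Q * 2 ^ (n + 1)) :
    ∃ Y, Y < Q * 2 ^ (n + 1) ∧ qmap 2 Q δ (2 ^ n) (fun _ => X) = (fun _ => Y) ∧
      tw δ Q n (emX Q n X) = emX Q n Y := by
  have h0 : 0 < 2 ^ (n + 1) := pow_pos two_pos _
  have h0' : 0 < 2 ^ n := pow_pos two_pos _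
  obtain ⟨q, hqdef⟩ : ∃ q, q = X / 2 ^ (n + 1) := ⟨_, rfl⟩
  obtain ⟨W, hWdef⟩ : ∃ W, W = X % 2 ^ (n + 1) := ⟨_, rfl⟩
  have hq : q < Q := by rw [hqdef]; exact (Nat.div_lt_iff_lt_mul h0).2 hX
  have hW : W < 2 ^ (n + 1) := by rw [hWdef]; exact Nat.mod_lt _ h0
  have hXe : X = q * 2 ^ (n + 1) + W := by
    rw [hqdef, hWdef, mul_comm]
    exact (Nat.div_add_mod _ _).symm
  have ha : W / 2 ^ n < 2 := by
    rw [pow_succ] at hW
    exact Nat.div_lt_of_lt_mul hW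
  have hw : W % 2 ^ n < 2 ^ n := Nat.mod_lt _ h0'
  obtain ⟨a, hadef⟩ : ∃ a, a = W / 2 ^ n := ⟨_, rfl⟩
  obtain ⟨w, hwdef⟩ : ∃ w, w = W % 2 ^ n := ⟨_, rfl⟩
  have hWe : W = 2 ^ n * a + w := by
    rw [hadef, hwdef]
    exact (Nat.div_add_mod _ _).symm
  rw [← hadef] at ha
  rw [← hwdef] at hw
  obtain ⟨h1, h2⟩ := hδ q a hq ha
  have hd : (q * 2 + a) / 2 = q := by omega
  have hm : (q * 2 + a) % 2 = a := by omega
  have e := qmap_step (δ := δ) (Q := Q) (s := 2) (p' := 2 ^ n) (i := q * 2 + a) (w := w) two_pos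
    (by omega) hw (by rw [hd, hm]; exact h1) (by rw [hd, hm]; exact h2)
  rw [hd, hm] at e
  have hp : 2 * 2 ^ n = 2 ^ (n + 1) := by rw [pow_succ, mul_comm]
  have hX2 : (q * 2 + a) * 2 ^ n + w = X := by
    rw [hXe, hWe, pow_succ]
    ring
  rw [hX2, hp] at e
  have hlt : 2 * w + (δ q a).2 < 2 ^ (n + 1) := by omega
  refine ⟨(δ q a).1 * 2 ^ (n + 1) + (2 * w + (δ q a).2), ?_, e, ?_⟩
  · calc (δ q a).1 * 2 ^ (n + 1) + (2 * w + (δ q a).2) <
        (δ q a).1 * 2 ^ (n + 1) + 2 ^ (n + 1) := by omega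
      _ = ((δ q a).1 + 1) * 2 ^ (n + 1) := by ring
      _ ≤ Q * 2 ^ (n + 1) := Nat.mul_le_mul_right _ h1
  · rw [emX_eq hlt, hXe, emX_eq hW, tw_em hq hW (by rw [← hadef]; exact h2), ← hadef, ← hwdef]

theorem iter_qmap {δ : ℕ → ℕ → ℕ × ℕ} {Q n X : ℕ}
    (hδ : ∀ q a, q < Q → a < 2 → (δ q a).1 < Q ∧ (δ q a).2 < 2) (hX : X < Q * 2 ^ (n + 1))
    (t : ℕ) : ∃ Y, Y < Q * 2 ^ (n + 1) ∧ (qmap 2 Q δ (2 ^ n))^[t] (fun _ => X) = (fun _ => Y) ∧
      (tw δ Q n)^[t] (emX Q n X) = emX Q n Y := by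
  induction t with
  | zero => exact ⟨X, hX, rfl, rfl⟩
  | succ t ih =>
    obtain ⟨Y, h1, h2, h3⟩ := ih
    obtain ⟨Z, g1, g2, g3⟩ := step_qmap hδ h1
    refine ⟨Z, g1, ?_, ?_⟩
    · rw [Function.iterate_succ_apply', h2, g2]
    · rw [Function.iterate_succ_apply', h3, g3]

theorem orbit_qmap {δ : ℕ → ℕ → ℕ × ℕ} {Q n X Y : ℕ}
    (hδ : ∀ q a, q < Q → a < 2 → (δ q a).1 < Q ∧ (δ q a).2 < 2) (hX : X < Q * 2 ^ (n + 1))
    (hY : Y < Q * 2 ^ (n + 1)) :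
    (∃ t, (qmap 2 Q δ (2 ^ n))^[t] (fun _ => X) = fun _ => Y) ↔
      ∃ t, (tw δ Q n)^[t] (emX Q n X) = emX Q n Y := by
  constructor
  · rintro ⟨t, ht⟩
    obtain ⟨Z, _, h2, h3⟩ := iter_qmap hδ hX t
    rw [ht] at h2
    exact ⟨t, by rw [h3, congrFun h2 0]⟩
  · rintro ⟨t, ht⟩
    obtain ⟨Z, h1, h2, h3⟩ := iter_qmap hδ hX t
    rw [h3] at ht
    refine ⟨t, ?_⟩
    rw [h2, emX_inj h1 hY ht]

end Pool.Agent.LinU46
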