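import Pool.Agent.LinU46.Two
import Pool.Agent.PTr.Univ
import Pool.Agent.H63LB.Def

/-!
# Two linear pieces of bounded bandwidth plus bounded rank

* `TwoBand r`: the iterates of definable maps of `(ℤ/2)^N`, `2 ^ N ≤ B`, which are linear on the
  even and on the odd numbers with matrices in `BandRank r`, are in `DFun`.
* `twoBand_iff`: for all large `r` this is equivalent to the equality of `Delta0` and `E2Star`.
-/

set_option autoImplicit false

namespace Pool.Agent.LinU46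

open Finset Pool.Agent.Grz Pool.Agent.GAvg Pool.Agent.PTr Pool.Agent.LinU Pool.Agent.H63LB

theorem bandRank_mono {R : Type*} [CommRing R] {N r r' : ℕ} (h : r ≤ r')
    {A : Matrix (Fin N) (Fin N) R} (hA : BandRank r A) : BandRank r' A := by
  obtain ⟨J, F, C, hJ, rfl⟩ := hA
  refine ⟨J, fun i k => if hk : (k : ℕ) < r then F i ⟨k, hk⟩ else 0,
    fun k j => if hk : (k : ℕ) < r then C ⟨k, hk⟩ j else 0, fun i j hij => hJ i j (by omega), ?_⟩
  congr 1
  ext i j
  rw [Matrix.mul_apply, Matrix.mul_apply]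
  obtain ⟨s, rfl⟩ := Nat.exists_eq_add_of_le h
  rw [Fin.sum_univ_add]
  rw [add_eq_left.2]
  · refine sum_congr rfl fun k _ => ?_
    simp
  · refine sum_eq_zero fun k _ => ?_
    simp

theorem bandRank_mat (δ : ℕ → ℕ → ℕ × ℕ) (Q n a : ℕ) : BandRank (Q + 1) (mat δ Q n a) := by
  refine ⟨fun i j => if (i : ℕ) < n ∧ (j : ℕ) = i + 1 then 1 else 0,
    fun i k => if (i : ℕ) = n + k then 1 else 0,
    fun k j => mat δ Q n a ⟨n + k, by omega⟩ j, ?_, ?_⟩
  · intro i j hij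
    dsimp only
    rw [if_neg]
    omega
  · ext i j
    rw [Matrix.add_apply, Matrix.mul_apply]
    by_cases hi : (i : ℕ) < n
    · rw [sum_eq_zero, add_zero]
      · unfold mat
        rw [if_pos hi]
        simp only [hi, true_and]
      · intro k _
        rw [if_neg (by omega), zero_mul]
    · obtain ⟨k, hk⟩ : ∃ k : Fin (Q + 1), (i : ℕ) = n + k :=
        ⟨⟨(i : ℕ) - n, by omega⟩, by simp; omega⟩
      rw [sum_eq_single k]
      · rw [if_neg (fun h => hi h.1), zero_add, if_pos hk, one_mul]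
        congr 1
        exact Fin.ext hk
      · intro b _ hb
        rw [if_neg, zero_mul]
        intro h
        exact hb (Fin.ext (by omega))
      · intro h
        exact absurd (mem_univ _) h

/-- The iterates of definable maps on `N` bits, `2 ^ N ≤ B`, which are linear over `ℤ/2` on the even
numbers and on the odd numbers, with matrices of bandwidth at most `r` plus rank at most `r`, are
in `DFun`. -/
def TwoBand (r : ℕ) : Prop :=
  ∀ (n : ℕ) (N B x t : (Fin n → ℕ) → ℕ) (T : ℕ → (Fin n → ℕ) → ℕ),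
    DFun n N → DFun n B → DFun n x → DFun n t →
    DFun (n + 1) (fun w => T (w 0) fun i => w i.succ) →
    (∀ v, 2 ^ N v ≤ B v) → (∀ v z, z < 2 ^ N v → T z v < 2 ^ N v) →
    (∀ v, ∃ A₀ A₁ : Matrix (Fin (N v)) (Fin (N v)) (ZMod 2), BandRank r A₀ ∧ BandRank r A₁ ∧
      ∀ z, z < 2 ^ N v →
        vecOf 2 (N v) (T z v) = (if z % 2 = 0 then A₀ else A₁).mulVec (vecOf 2 (N v) z)) →
    (∀ v, x v < 2 ^ N v) → DFun n (fun v => (fun z => T z v)^[t v] (x v))

theorem twOrb_of_twoBand {r : ℕ} (H : TwoBand r) (δ : ℕ → ℕ → ℕ × ℕ) (Qs x0 y0 n : ℕ)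
    (hr : Qs + 1 ≤ r) : TwOrb δ Qs x0 y0 n := by
  have hnn : DFun (n + 2) (fun u => lg (u 1 / 2)) :=
    DFun.lg (DFun.divPos (DFun.proj 1) (DFun.const 2) fun _ => two_pos)
  have hBB : DFun (n + 2) (fun u => (u 1 + 1) * 2 ^ (1 + Qs)) :=
    ((DFun.proj 1).add (DFun.const 1)).mul (DFun.const _)
  have hbd : ∀ u : Fin (n + 2) → ℕ, 2 ^ (lg (u 1 / 2) + 1 + Qs) ≤ (u 1 + 1) * 2 ^ (1 + Qs) := by
    intro u
    rw [add_assoc, pow_add]
    refine Nat.mul_le_mul_right _ ?_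
    rcases Nat.eq_zero_or_pos (u 1 / 2) with h0 | h0
    · rw [h0]
      simp [lg]
    · have h1 : 2 ^ lg (u 1 / 2) ≤ u 1 / 2 := Nat.pow_log_le_self 2 (by omega)
      omega
  have h1 : DFun (n + 2 + 1) (fun w => (fun z => tw δ Qs (lg ((fun i => w i.succ : Fin (n + 2) → ℕ) 1 / 2)) z)^[w 0]
      (em Qs (lg ((fun i => w i.succ : Fin (n + 2) → ℕ) 1 / 2)) x0 ((fun i => w i.succ : Fin (n + 2) → ℕ) 0))) := by
    refine H (n + 2 + 1) (fun w => lg ((fun i => w i.succ : Fin (n + 2) → ℕ) 1 / 2) + 1 + Qs)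
      (fun w => ((fun i => w i.succ : Fin (n + 2) → ℕ) 1 + 1) * 2 ^ (1 + Qs))
      (fun w => em Qs (lg ((fun i => w i.succ : Fin (n + 2) → ℕ) 1 / 2)) x0 ((fun i => w i.succ : Fin (n + 2) → ℕ) 0))
      (fun w => w 0)
      (fun z w => tw δ Qs (lg ((fun i => w i.succ : Fin (n + 2) → ℕ) 1 / 2)) z)
      ((hnn.weak.add (DFun.const 1)).add (DFun.const Qs)) hBB.weak
      (dfun_em Qs x0 hnn.weak (DFun.proj _) hBB.weak fun w => hbd fun i => w i.succ)
      (DFun.proj 0)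
      (dfun_tw δ Qs hnn.weak.weak (DFun.proj 0) hBB.weak.weak fun w => hbd fun i => w i.succ.succ)
      (fun w => hbd fun i => w i.succ)
      (fun u z _ => tw_lt δ Qs _ z)
      (fun u => ⟨mat δ Qs _ 0, mat δ Qs _ 1, bandRank_mono hr (bandRank_mat δ Qs _ 0),
        bandRank_mono hr (bandRank_mat δ Qs _ 1), fun z _ => ?_⟩)
      (fun u => em_lt Qs _ x0 _)
    rw [vec_tw]
    rcases Nat.mod_two_eq_zero_or_one z with h | h
    · rw [if_pos h, h]
    · rw [if_neg (by omega), h]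
  have hem : DFun (n + 2) (fun u => em Qs (lg (u 1 / 2)) y0 1) :=
    dfun_em Qs y0 hnn (DFun.const 1) hBB hbd
  have h2 := Delta0.bexFun (P := fun i (u : Fin (n + 2) → ℕ) =>
    (fun z => tw δ Qs (lg (u 1 / 2)) z)^[i] (em Qs (lg (u 1 / 2)) x0 (u 0)) =
      em Qs (lg (u 1 / 2)) y0 1) hBB (Delta0.eqFun h1 hem.weak)
  refine h2.of_iff fun u => ⟨?_, ?_⟩
  · rintro ⟨i, hi⟩
    obtain ⟨j, hj, hj'⟩ := iter_le (em_lt Qs (lg (u 1 / 2)) x0 (u 0))
      (f := fun z => tw δ Qs (lg (u 1 / 2)) z) (fun z _ => tw_lt δ Qs _ z) i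
    exact ⟨j, hj.trans (hbd u), hj'.trans hi⟩
  · rintro ⟨i, -, hi⟩
    exact ⟨i, hi⟩

/-- **Two pieces of bounded bandwidth plus bounded rank.** -/
theorem twoBand_iff : ∃ r₀, ∀ r, r₀ ≤ r →
    ((∀ (n : ℕ) (R : (Fin n → ℕ) → Prop), Delta0 n R ↔ E2Star n R) ↔ TwoBand r) := by
  obtain ⟨δ, Qs, x0, y0, h⟩ := exists_red urel_e2Star
  refine ⟨Qs + 1, fun r hr => ⟨?_, ?_⟩⟩
  · intro H n N B x t T hN hB hx ht hT hNB hTb _ hxb
    exact iter_of_eq (fun n R hR => (H n R).2 hR) (dfun_powLe (DFun.const 2) hN hB hNB) hx ht hT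
      hxb hTb
  · intro H n R
    refine ⟨fun hR => hR.e2Star, fun hR => ?_⟩
    have hU : Delta0 10 URel := h (twOrb_of_twoBand H δ Qs x0 y0 10 hr)
    obtain ⟨g, hg⟩ := urel_complete hR
    exact (hU.subst (h := fun i v => MvPolynomial.eval v (g i)) (fun i => DFun.ofPoly _)).of_iff hg

end Pool.Agent.LinU46
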