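import Pool.Agent.LinU46.Band
import Pool.Agent.H63WB.Def

/-!
# Two linear pieces of wide bandwidth plus bounded rank

* `wideRank_of_bandRank`: a matrix in `BandRank r` is in `WideRank d (r ^ d)`.
* `TwoWide d r`: the iterates of definable maps of `(ℤ/2)^N`, `2 ^ N ≤ B`, which are linear on the
  even and on the odd numbers with matrices in `WideRank d r`, are in `DFun`.
* `twoWide_iff`: for `1 ≤ d` and all large `r` this is equivalent to the equality of `Delta0` and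
  `E2Star`.
-/

set_option autoImplicit false

namespace Pool.Agent.LinU46

open Finset Pool.Agent.Grz Pool.Agent.GAvg Pool.Agent.PTr Pool.Agent.LinU Pool.Agent.H63LB
open Pool.Agent.H63WB

/-- A matrix of bandwidth `≤ r` has wide bandwidth `≤ r ^ d`. -/
theorem wideRank_of_bandRank {R : Type*} [CommRing R] {N d r s : ℕ} (hd : 1 ≤ d) (hrs : r ≤ s)
    (hs : r ^ d ≤ s) {A : Matrix (Fin N) (Fin N) R} (hA : BandRank r A) : WideRank d s A := by
  obtain ⟨J, F, C, hJ, rfl⟩ := hA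
  refine ⟨J, fun i k => if hk : (k : ℕ) < r then F i ⟨k, hk⟩ else 0,
    fun k j => if hk : (k : ℕ) < r then C ⟨k, hk⟩ j else 0, fun i j hij => hJ i j ?_, ?_⟩
  · by_contra hc
    have h1 : (i : ℕ) - (j : ℕ) + ((j : ℕ) - (i : ℕ)) ≤ r := by omega
    have h2 : ((i : ℕ) - (j : ℕ) + ((j : ℕ) - (i : ℕ))) ^ d ≤ r ^ d := Nat.pow_le_pow_left h1 d
    have h3 : 1 ≤ N ^ (d - 1) := Nat.one_le_pow _ _ (by have := i.2; omega)
    have h4 : s ≤ s * N ^ (d - 1) := Nat.le_mul_of_pos_right _ h3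
    omega
  · congr 1
    ext i j
    rw [Matrix.mul_apply, Matrix.mul_apply]
    obtain ⟨t, rfl⟩ := Nat.exists_eq_add_of_le hrs
    rw [Fin.sum_univ_add]
    rw [add_eq_left.2]
    · refine sum_congr rfl fun k _ => ?_
      simp
    · refine sum_eq_zero fun k _ => ?_
      simp

/-- The iterates of definable maps on `N` bits, `2 ^ N ≤ B`, which are linear over `ℤ/2` on the even
numbers and on the odd numbers, with matrices in `WideRank d r`, are in `DFun`. -/
def TwoWide (d r : ℕ) : Prop :=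
  ∀ (n : ℕ) (N B x t : (Fin n → ℕ) → ℕ) (T : ℕ → (Fin n → ℕ) → ℕ),
    DFun n N → DFun n B → DFun n x → DFun n t →
    DFun (n + 1) (fun w => T (w 0) fun i => w i.succ) →
    (∀ v, 2 ^ N v ≤ B v) → (∀ v z, z < 2 ^ N v → T z v < 2 ^ N v) →
    (∀ v, ∃ A₀ A₁ : Matrix (Fin (N v)) (Fin (N v)) (ZMod 2), WideRank d r A₀ ∧ WideRank d r A₁ ∧
      ∀ z, z < 2 ^ N v →
        vecOf 2 (N v) (T z v) = (if z % 2 = 0 then A₀ else A₁).mulVec (vecOf 2 (N v) z)) →
    (∀ v, x v < 2 ^ N v) → DFun n (fun v => (fun z => T z v)^[t v] (x v))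

theorem twoBand_of_twoWide {d r s : ℕ} (hd : 1 ≤ d) (hrs : r ≤ s) (hs : r ^ d ≤ s)
    (H : TwoWide d s) : TwoBand r := by
  intro n N B x t T hN hB hx ht hT hNB hTb hlin hxb
  refine H n N B x t T hN hB hx ht hT hNB hTb (fun v => ?_) hxb
  obtain ⟨A₀, A₁, h0, h1, h⟩ := hlin v
  exact ⟨A₀, A₁, wideRank_of_bandRank hd hrs hs h0, wideRank_of_bandRank hd hrs hs h1, h⟩

/-- **Two pieces of wide bandwidth plus bounded rank.** -/
theorem twoWide_iff {d : ℕ} (hd : 1 ≤ d) : ∃ r₀, ∀ r, r₀ ≤ r →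
    ((∀ (n : ℕ) (R : (Fin n → ℕ) → Prop), Delta0 n R ↔ E2Star n R) ↔ TwoWide d r) := by
  obtain ⟨r₀, h⟩ := twoBand_iff
  refine ⟨r₀ + r₀ ^ d, fun r hr => ⟨?_, ?_⟩⟩
  · intro H n N B x t T hN hB hx ht hT hNB hTb _ hxb
    exact iter_of_eq (fun n R hR => (H n R).2 hR) (dfun_powLe (DFun.const 2) hN hB hNB) hx ht hT
      hxb hTb
  · intro H
    exact (h r₀ le_rfl).2 (twoBand_of_twoWide hd (by omega) (by omega) H)

end Pool.Agent.LinU46
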